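import Mathlib

set_option autoImplicit false

namespace Pool.Agent.Results.MP_6ac782_lc.SymmetricImpliesTransitive

open Filter

/-- The sum of two ultrafilters: `A ∈ add u v` iff `{x | {y | x + y ∈ A} ∈ v} ∈ u`. -/
def add (u v : Ultrafilter ℤ) : Ultrafilter ℤ := u.bind (fun x => v.map (fun y => x + y))

/-- The ultrafilter `-u = {-A | A ∈ u}`. -/
def neg (u : Ultrafilter ℤ) : Ultrafilter ℤ := u.map (fun x => -x)

/-- `A` is upward closed for divisibility. -/
def UpClosed (A : Set ℤ) : Prop := ∀ a ∈ A, ∀ b, a ∣ b → b ∈ A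

/-- The divisibility of ultrafilters: every upward closed set in `u` belongs to `v`. -/
def tdvd (u v : Ultrafilter ℤ) : Prop := ∀ A : Set ℤ, UpClosed A → A ∈ u → A ∈ v

/-- The congruence relation modulo `w`: `w` divides `u - v`. -/
def Cong (w u v : Ultrafilter ℤ) : Prop := tdvd w (add u (neg v))

theorem mem_add {u v : Ultrafilter ℤ} {A : Set ℤ} :
    A ∈ add u v ↔ ∀ᶠ x in (u : Filter ℤ), ∀ᶠ y in (v : Filter ℤ), x + y ∈ A := Iff.rfl

theorem mem_add_neg {u v : Ultrafilter ℤ} {A : Set ℤ} :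
    A ∈ add u (neg v) ↔ ∀ᶠ x in (u : Filter ℤ), ∀ᶠ y in (v : Filter ℤ), x + -y ∈ A := Iff.rfl

/-! ### self-divisible ultrafilters give transitive relations -/

theorem trans_of_self (w : Ultrafilter ℤ) (hw : {n : ℤ | {x : ℤ | n ∣ x} ∈ w} ∈ w)
    (u v t : Ultrafilter ℤ) (h1 : Cong w u v) (h2 : Cong w v t) : Cong w u t := by
  intro A hA hAw
  obtain ⟨n, hn1, hn2⟩ := w.nonempty_of_mem (Filter.inter_mem hAw hw)
  have hup : UpClosed {x : ℤ | n ∣ x} := fun a ha b hab => dvd_trans ha hab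
  have h3 := h1 _ hup hn2
  have h4 := h2 _ hup hn2
  rw [mem_add_neg] at h3 h4 ⊢
  filter_upwards [h3] with x hx
  obtain ⟨y, hy1, hy2⟩ := (hx.and h4).exists
  filter_upwards [hy2] with z hz
  apply hA n hn1
  have h5 : n ∣ x + -y := hy1
  have h6 : n ∣ y + -z := hz
  have h7 : x + -z = (x + -y) + (y + -z) := by ring
  rw [h7]
  exact dvd_add h5 h6

/-! ### a choice of residues -/

theorem residue (p a κ : ℕ) (hp : p.Prime) (ha : a ≠ 0) (hκ : ¬ p ^ κ ∣ a) (y : ℕ → ℕ)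
    (hy : ∀ i, p ≤ 2 * i → p ^ κ ∣ y i) :
    ∃ s, ∀ i, 1 ≤ i → ∀ z, z ≡ s [MOD p] → ¬ p ^ κ ∣ a * z + y i := by
  obtain ⟨v, a', ha', rfl⟩ := Nat.exists_eq_pow_mul_and_not_dvd ha p hp.ne_one
  have hvκ : v < κ := by
    by_contra h
    apply hκ
    exact (pow_dvd_pow p (by omega)).trans (dvd_mul_right _ _)
  have hdvd : p ^ (v + 1) ∣ p ^ κ := pow_dvd_pow p hvκ
  by_contra hcon
  push Not at hcon
  choose i hi z hz hd using hcon
  have hp2 := hp.two_le
  obtain ⟨s, hs, t, ht, hst, hg⟩ := Finset.exists_ne_map_eq_of_card_lt_of_maps_to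
    (s := Finset.range p) (t := Finset.range ((p - 1) / 2 + 1))
    (f := fun s => if p ≤ 2 * i s then 0 else i s) (by
      rw [Finset.card_range, Finset.card_range]
      omega) (by
      intro s _
      simp only [Finset.coe_range, Set.mem_Iio]
      split_ifs <;> omega)
  rw [Finset.mem_range] at hs ht
  have hyy : y (i s) ≡ y (i t) [MOD p ^ (v + 1)] := by
    by_cases h1 : p ≤ 2 * i s
    · rw [if_pos h1] at hg
      by_cases h2 : p ≤ 2 * i t
      · have h3 := (Nat.modEq_zero_iff_dvd.2 (hdvd.trans (hy _ h1)))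
        have h4 := (Nat.modEq_zero_iff_dvd.2 (hdvd.trans (hy _ h2)))
        exact h3.trans h4.symm
      · rw [if_neg h2] at hg
        have := hi t
        omega
    · rw [if_neg h1] at hg
      by_cases h2 : p ≤ 2 * i t
      · rw [if_pos h2] at hg
        have := hi s
        omega
      · rw [if_neg h2] at hg
        rw [hg]
  have h5 : p ^ v * a' * z s + y (i s) ≡ 0 [MOD p ^ (v + 1)] :=
    Nat.modEq_zero_iff_dvd.2 (hdvd.trans (hd s))
  have h6 : p ^ v * a' * z t + y (i t) ≡ 0 [MOD p ^ (v + 1)] :=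
    Nat.modEq_zero_iff_dvd.2 (hdvd.trans (hd t))
  have h7 : p ^ v * a' * z s + y (i s) ≡ p ^ v * a' * z t + y (i s) [MOD p ^ (v + 1)] :=
    h5.trans (h6.symm.trans (Nat.ModEq.add_left _ hyy.symm))
  have h8 : p ^ v * a' * z s ≡ p ^ v * a' * z t [MOD p ^ (v + 1)] := Nat.ModEq.add_right_cancel' _ h7
  have h9 : p ^ v * (a' * z s) ≡ p ^ v * (a' * z t) [MOD p ^ v * p] := by
    rw [← mul_assoc, ← mul_assoc, ← pow_succ]
    exact h8
  have h10 : a' * z s ≡ a' * z t [MOD p] :=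
    Nat.ModEq.mul_left_cancel' (pow_ne_zero _ hp.ne_zero) h9
  have h11 : z s ≡ z t [MOD p] := by
    refine Nat.ModEq.cancel_left_of_coprime ?_ h10
    exact (Nat.Prime.coprime_iff_not_dvd hp).2 ha'
  have h12 : s ≡ t [MOD p] := (hz s).symm.trans (h11.trans (hz t))
  apply hst
  have h13 : s % p = t % p := h12
  rw [Nat.mod_eq_of_lt hs, Nat.mod_eq_of_lt ht] at h13
  exact h13

/-! ### thresholds -/

/-- quickly increasing thresholds -/
noncomputable def T : ℕ → ℕ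
  | 0 => 1
  | j + 1 => T j * primorial (T j) + T j + 1

theorem T_succ (j : ℕ) : T (j + 1) = T j * primorial (T j) + T j + 1 := rfl

theorem T_mono : StrictMono T := by
  apply strictMono_nat_of_lt_succ
  intro j
  rw [T_succ]
  omega

theorem lt_T (j : ℕ) : j < T j := by
  induction j with
  | zero => exact Nat.one_pos
  | succ j ih =>
    have : T j < T (j + 1) := T_mono (Nat.lt_succ_self j)
    omega

/-- the index of the interval containing `p` -/
noncomputable def ix (p : ℕ) : ℕ := Nat.find (⟨p, (lt_T p).le⟩ : ∃ j, p ≤ T j)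

theorem ix_le {p j : ℕ} (h : p ≤ T j) : ix p ≤ j := Nat.find_le h

theorem lt_ix {p j : ℕ} (h : T j < p) : j < ix p := by
  rw [ix, Nat.lt_find_iff]
  intro m hm hpm
  have := T_mono.monotone hm
  omega

section

variable (w : Ultrafilter ℤ)

/-- some power of `p` does not divide `w` -/
def Fin' (p : ℕ) : Prop := ∃ k : ℕ, {x : ℤ | ((p ^ k : ℕ) : ℤ) ∣ x} ∉ w

open Classical in
/-- the least exponent such that this power of `p` does not divide `w` -/
noncomputable def kap (p : ℕ) : ℕ := if h : Fin' w p then Nat.find h else 0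

theorem kap_spec {p : ℕ} (h : Fin' w p) : {x : ℤ | ((p ^ kap w p : ℕ) : ℤ) ∣ x} ∉ w := by
  classical
  unfold kap
  rw [dif_pos h]
  exact Nat.find_spec h

theorem kap_le {p k : ℕ} (h : {x : ℤ | ((p ^ k : ℕ) : ℤ) ∣ x} ∉ w) : kap w p ≤ k := by
  classical
  unfold kap
  rw [dif_pos ⟨k, h⟩]
  exact Nat.find_le h

theorem kap_pos {p : ℕ} (h : Fin' w p) : 0 < kap w p := by
  rcases Nat.eq_zero_or_pos (kap w p) with h1 | h1
  · exfalso
    have := kap_spec w h
    rw [h1] at this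
    apply this
    refine Filter.mem_of_superset Filter.univ_mem ?_
    intro x _
    change ((p ^ 0 : ℕ) : ℤ) ∣ x
    simp
  · exact h1

open Classical in
/-- the sequence `y` -/
noncomputable def yy (i : ℕ) : ℕ :=
  i.factorial * ∏ p ∈ (Finset.range (2 * i + 1)).filter (fun p => p.Prime ∧ Fin' w p), p ^ kap w p

theorem yy_pos (i : ℕ) : 0 < yy w i := by
  classical
  unfold yy
  apply Nat.mul_pos (Nat.factorial_pos _)
  apply Finset.prod_pos
  intro p hp
  exact pow_pos (Finset.mem_filter.1 hp).2.1.pos _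

theorem yy_dvd {p : ℕ} (hp : p.Prime) (hF : Fin' w p) (i : ℕ) (h : p ≤ 2 * i) :
    p ^ kap w p ∣ yy w i := by
  classical
  unfold yy
  apply Dvd.dvd.mul_left
  apply Finset.dvd_prod_of_mem (fun p => p ^ kap w p)
  rw [Finset.mem_filter, Finset.mem_range]
  exact ⟨by omega, hp, hF⟩

theorem yy_fac {n i : ℕ} (hn : 0 < n) (h : n ≤ i) : n ∣ yy w i := by
  classical
  unfold yy
  exact (Nat.dvd_factorial hn h).mul_right _

theorem exists_z (ε : ℕ) (a : ℤ) : ∃ z : ℕ, a ≠ 0 → z ≤ primorial (T (2 * a.natAbs + ε)) ∧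
    ∀ p : ℕ, p.Prime → p ≤ T (2 * a.natAbs + ε) → Fin' w p → ¬ p ^ kap w p ∣ a.natAbs →
      ∀ i, 1 ≤ i → ¬ p ^ kap w p ∣ a.natAbs * z + yy w i := by
  classical
  by_cases ha : a = 0
  · exact ⟨0, fun h => absurd ha h⟩
  let Q : Finset ℕ := (Finset.range (T (2 * a.natAbs + ε) + 1)).filter
    (fun p => p.Prime ∧ Fin' w p ∧ ¬ p ^ kap w p ∣ a.natAbs)
  have hQ : ∀ p, p ∈ Q ↔ p ≤ T (2 * a.natAbs + ε) ∧ p.Prime ∧ Fin' w p ∧
      ¬ p ^ kap w p ∣ a.natAbs := by
    intro p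
    rw [Finset.mem_filter, Finset.mem_range, Nat.lt_succ_iff]
  have hs : ∀ p, ∃ s, p ∈ Q → ∀ i, 1 ≤ i → ∀ z, z ≡ s [MOD p] →
      ¬ p ^ kap w p ∣ a.natAbs * z + yy w i := by
    intro p
    by_cases hp : p ∈ Q
    · obtain ⟨-, hp1, hp2, hp3⟩ := (hQ p).1 hp
      obtain ⟨s, hs⟩ := residue p a.natAbs (kap w p) hp1 (Int.natAbs_ne_zero.2 ha) hp3 (yy w)
        (fun i hi => yy_dvd w hp1 hp2 i hi)
      exact ⟨s, fun _ => hs⟩
    · exact ⟨0, fun h => absurd h hp⟩
  choose s hs using hs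
  have h1 : ∀ p ∈ Q, p ≠ 0 := fun p hp => ((hQ p).1 hp).2.1.ne_zero
  have h2 : Set.Pairwise (Q : Set ℕ) (Function.onFun Nat.Coprime (fun p => p)) := by
    intro p hp q hq hpq
    exact (Nat.coprime_primes ((hQ p).1 hp).2.1 ((hQ q).1 hq).2.1).2 hpq
  refine ⟨(Nat.chineseRemainderOfFinset s (fun p => p) Q h1 h2 : ℕ), fun _ => ⟨?_, ?_⟩⟩
  · refine (Nat.chineseRemainderOfFinset_lt_prod s (fun p => p) h1 h2).le.trans ?_
    unfold primorial
    apply Finset.prod_le_prod_of_subset_of_one_le'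
    · intro p hp
      obtain ⟨hp1, hp2, -, -⟩ := (hQ p).1 hp
      rw [Finset.mem_filter, Finset.mem_range]
      exact ⟨by omega, hp2⟩
    · intro p hp _
      exact (Finset.mem_filter.1 hp).2.one_lt.le
  · intro p hp1 hp2 hp3 hp4 i hi
    have hpQ : p ∈ Q := (hQ p).2 ⟨hp2, hp1, hp3, hp4⟩
    exact hs p hpQ i hi _ ((Nat.chineseRemainderOfFinset s (fun p => p) Q h1 h2).2 p hpQ)

/-- the multiplier -/
noncomputable def zz (ε : ℕ) (a : ℤ) : ℕ := (exists_z w ε a).choose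

theorem zz_spec (ε : ℕ) (a : ℤ) (ha : a ≠ 0) : zz w ε a ≤ primorial (T (2 * a.natAbs + ε)) ∧
    ∀ p : ℕ, p.Prime → p ≤ T (2 * a.natAbs + ε) → Fin' w p → ¬ p ^ kap w p ∣ a.natAbs →
      ∀ i, 1 ≤ i → ¬ p ^ kap w p ∣ a.natAbs * zz w ε a + yy w i :=
  (exists_z w ε a).choose_spec ha

/-- the separating set -/
def A0 (ε : ℕ) : Set ℤ :=
  {n | ∃ p : ℕ, p.Prime ∧ ix p % 2 = ε ∧ Fin' w p ∧ ((p ^ kap w p : ℕ) : ℤ) ∣ n}

theorem A0_up (ε : ℕ) : UpClosed (A0 w ε) := by
  rintro a ⟨p, h1, h2, h3, h4⟩ b hb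
  exact ⟨p, h1, h2, h3, h4.trans hb⟩

theorem avoid (ε : ℕ) (hε : ε < 2) (a : ℤ) (ha : a ≠ 0) (i : ℕ) (hi : 1 ≤ i)
    (h1 : ∃ p : ℕ, p.Prime ∧ Fin' w p ∧ p ^ kap w p ∣ a.natAbs)
    (h2 : ∀ p : ℕ, p.Prime → Fin' w p → p ^ kap w p ∣ a.natAbs → yy w i < p) :
    ((yy w i : ℕ) : ℤ) + ((a.natAbs * zz w ε a : ℕ) : ℤ) ∉ A0 w ε := by
  rintro ⟨p, hp1, hp2, hp3, hp4⟩
  obtain ⟨hz1, hz2⟩ := zz_spec w ε a ha
  set m := 2 * a.natAbs + ε with hm
  set z := zz w ε a with hz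
  rw [← Nat.cast_add, Int.natCast_dvd_natCast, add_comm] at hp4
  have ha' : 0 < a.natAbs := Int.natAbs_pos.2 ha
  -- size of `y`
  obtain ⟨q, hq1, hq2, hq3⟩ := h1
  have hyq := h2 q hq1 hq2 hq3
  have hqa : q ≤ a.natAbs := by
    apply Nat.le_of_dvd ha'
    exact (dvd_pow_self q (kap_pos w hq2).ne').trans hq3
  have haT : a.natAbs ≤ T m := by
    have := lt_T m
    omega
  have hbound : a.natAbs * z + yy w i < T (m + 1) := by
    rw [T_succ]
    have h3 : a.natAbs * z ≤ T m * primorial (T m) := Nat.mul_le_mul haT hz1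
    omega
  have hypos := yy_pos w i
  have hpn : p ∣ a.natAbs * z + yy w i := (dvd_pow_self p (kap_pos w hp3).ne').trans hp4
  have hple : p ≤ a.natAbs * z + yy w i := Nat.le_of_dvd (by omega) hpn
  have hpT : p ≤ T m := by
    by_contra h
    have h3 := lt_ix (p := p) (j := m) (by omega)
    have h4 := ix_le (p := p) (j := m + 1) (by omega)
    have h5 : ix p = m + 1 := by omega
    omega
  by_cases h3 : p ^ kap w p ∣ a.natAbs
  · have h4 := h2 p hp1 hp3 h3
    have h5 : p ∣ a.natAbs * z := ((dvd_pow_self p (kap_pos w hp3).ne').trans h3).mul_right _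
    have h6 : p ∣ yy w i := (Nat.dvd_add_right h5).1 hpn
    have := Nat.le_of_dvd hypos h6
    omega
  · exact hz2 p hp1 hpT hp3 h3 i hi hp4

/-- if `w` is not self-divisible, almost all `a` have an anomalous prime -/
theorem exists_anom (a : ℤ) (ha : a ≠ 0) (h : {x : ℤ | a ∣ x} ∉ w) :
    ∃ p : ℕ, p.Prime ∧ Fin' w p ∧ p ^ kap w p ∣ a.natAbs := by
  by_contra hcon
  push Not at hcon
  apply h
  have h1 : ∀ d ∈ a.natAbs.divisors, ∀ᶠ x in (w : Filter ℤ),
      (∃ p k : ℕ, p.Prime ∧ d = p ^ k) → ((d : ℕ) : ℤ) ∣ x := by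
    intro d hd
    by_cases h2 : ∃ p k : ℕ, p.Prime ∧ d = p ^ k
    · obtain ⟨p, k, hp, rfl⟩ := h2
      have h3 : {x : ℤ | ((p ^ k : ℕ) : ℤ) ∣ x} ∈ w := by
        by_contra h4
        have h5 := kap_le w h4
        exact hcon p hp ⟨k, h4⟩ ((pow_dvd_pow p h5).trans (Nat.dvd_of_mem_divisors hd))
      filter_upwards [h3] with x hx _
      exact hx
    · exact Filter.Eventually.of_forall fun x h3 => absurd h3 h2
  rw [← Filter.eventually_all_finset] at h1
  filter_upwards [h1] with x hx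
  rw [← Int.natAbs_dvd_natAbs, Nat.dvd_iff_prime_pow_dvd_dvd]
  intro p k hp hpk
  have h2 := hx (p ^ k) (Nat.mem_divisors.2 ⟨hpk, Int.natAbs_ne_zero.2 ha⟩) ⟨p, k, hp, rfl⟩
  exact Int.natCast_dvd.1 h2

end

/-! ### symmetric relations come from self-divisible ultrafilters -/

theorem self_of_symm (w : Ultrafilter ℤ) (hw : w ≠ pure 0)
    (hsymm : ∀ u v, Cong w u v → Cong w v u) : {n : ℤ | {x : ℤ | n ∣ x} ∈ w} ∈ w := by
  classical
  by_contra hself
  have hself' : ∀ᶠ a in (w : Filter ℤ), {x : ℤ | a ∣ x} ∉ w := Ultrafilter.compl_mem_iff_notMem.2 hself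
  have hne0 : ∀ᶠ a in (w : Filter ℤ), a ≠ 0 := by
    by_contra h
    rw [← Ultrafilter.eventually_not] at h
    have h1 : ({0} : Set ℤ) ∈ w := by
      filter_upwards [h] with x hx
      by_contra h2
      exact hx h2
    obtain ⟨x, hx, h2⟩ := Ultrafilter.eq_pure_of_finite_mem (Set.finite_singleton (0 : ℤ)) h1
    rw [Set.mem_singleton_iff.1 hx] at h2
    exact hw h2
  have hanom : ∀ᶠ a in (w : Filter ℤ),
      ∃ p : ℕ, p.Prime ∧ Fin' w p ∧ p ^ kap w p ∣ a.natAbs := by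
    filter_upwards [hself', hne0] with a ha1 ha2
    exact exists_anom w a ha2 ha1
  -- anomalous primes tend to infinity
  have hbig : ∀ N : ℕ, ∀ᶠ a in (w : Filter ℤ), ∀ p : ℕ, p.Prime → Fin' w p →
      p ^ kap w p ∣ a.natAbs → N < p := by
    intro N
    have h1 : ∀ᶠ a in (w : Filter ℤ), ∀ p ∈ Finset.range (N + 1), Fin' w p →
        ¬ p ^ kap w p ∣ a.natAbs := by
      rw [Filter.eventually_all_finset]
      intro p _
      by_cases hF : Fin' w p
      · have h2 := kap_spec w hF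
        have h3 : ∀ᶠ a in (w : Filter ℤ), ¬ ((p ^ kap w p : ℕ) : ℤ) ∣ a :=
          Ultrafilter.compl_mem_iff_notMem.2 h2
        filter_upwards [h3] with a ha _ h4
        exact ha (Int.natCast_dvd.2 h4)
      · exact Filter.Eventually.of_forall fun a h => absurd h hF
    filter_upwards [h1] with a ha p hp hF hpa
    by_contra h2
    exact ha p (Finset.mem_range.2 (by omega)) hF hpa
  -- choose the parity
  obtain ⟨ε, hε, hA⟩ : ∃ ε < 2, A0 w ε ∈ w := by
    have h1 : ∀ᶠ a in (w : Filter ℤ), a ∈ A0 w 0 ∨ a ∈ A0 w 1 := by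
      filter_upwards [hanom] with a ha
      obtain ⟨p, hp1, hp2, hp3⟩ := ha
      rcases Nat.mod_two_eq_zero_or_one (ix p) with h | h
      · exact Or.inl ⟨p, hp1, h, hp2, Int.natCast_dvd.2 hp3⟩
      · exact Or.inr ⟨p, hp1, h, hp2, Int.natCast_dvd.2 hp3⟩
    rw [Ultrafilter.eventually_or] at h1
    rcases h1 with h1 | h1
    · exact ⟨0, by omega, h1⟩
    · exact ⟨1, by omega, h1⟩
  let H : Ultrafilter ℕ := hyperfilter ℕ
  have hH : (H : Filter ℕ) ≤ atTop := by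
    change (hyperfilter ℕ : Filter ℕ) ≤ atTop
    rw [← Nat.cofinite_eq_atTop]
    exact hyperfilter_le_cofinite
  let v : Ultrafilter ℤ := H.map (fun i => ((yy w i : ℕ) : ℤ))
  let u : Ultrafilter ℤ := w.map (fun a => ((a.natAbs * zz w ε a : ℕ) : ℤ))
  -- `w` divides `u + v`
  have h1 : Cong w u (neg v) := by
    intro A hAup hAw
    rw [mem_add_neg]
    change ∀ᶠ a in (w : Filter ℤ), ∀ᶠ i in (H : Filter ℕ),
      ((a.natAbs * zz w ε a : ℕ) : ℤ) + - -((yy w i : ℕ) : ℤ) ∈ A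
    filter_upwards [hAw, hne0] with a ha ha0
    have h2 : ∀ᶠ i in (H : Filter ℕ), a.natAbs ≤ i := hH (eventually_ge_atTop _)
    filter_upwards [h2] with i hi
    apply hAup a ha
    rw [neg_neg]
    apply dvd_add
    · rw [← Int.natAbs_dvd, Int.natCast_dvd_natCast]
      exact dvd_mul_right _ _
    · rw [← Int.natAbs_dvd, Int.natCast_dvd_natCast]
      exact yy_fac w (Int.natAbs_pos.2 ha0) hi
  have h2 := hsymm _ _ h1 (A0 w ε) (A0_up w ε) hA
  rw [mem_add_neg] at h2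
  have h3 : ∀ᶠ i in (H : Filter ℕ), ∀ᶠ a in (w : Filter ℤ),
      -((yy w i : ℕ) : ℤ) + -((a.natAbs * zz w ε a : ℕ) : ℤ) ∈ A0 w ε := h2
  have h4 : ∀ᶠ i in (H : Filter ℕ), 1 ≤ i := hH (eventually_ge_atTop _)
  obtain ⟨i, hi1, hi2⟩ := (h3.and h4).exists
  obtain ⟨a, ⟨⟨ha1, ha2⟩, ha3⟩, ha4⟩ := (((hi1.and hanom).and (hbig (yy w i))).and hne0).exists
  apply avoid w ε hε a ha4 i hi2 ha2 ha3
  apply A0_up w ε _ ha1
  rw [← neg_add, neg_dvd]

/-- For every ultrafilter `w` on the integers different from the principal ultrafilter at `0`, if the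
congruence relation modulo `w` is symmetric then it is transitive. -/
theorem result (w : Ultrafilter ℤ) (hw : w ≠ pure 0)
    (hsymm : ∀ u v : Ultrafilter ℤ, Cong w u v → Cong w v u) (u v t : Ultrafilter ℤ)
    (h1 : Cong w u v) (h2 : Cong w v t) : Cong w u t :=
  trans_of_self w (self_of_symm w hw hsymm) u v t h1 h2

end Pool.Agent.Results.MP_6ac782_lc.SymmetricImpliesTransitive
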